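import Pool.Agent.Helper31.BQ.Stmts3
import Pool.Agent.Helper45.BQ.AL

/-! Row AL2 (the proof of row AL of helper45 with a second space as the target). -/

set_option autoImplicit false

namespace Pool.Agent.Helper63.BQ

open Filter Topology Pool.Agent.Helper31.BQ Pool.Agent.Helper45.BQ

universe u

theorem st_AL2 : ST_AL2.{u} := by
  intro E F _ _ _ _ M hM hP hK a ha haff
  obtain ⟨hcl, hfd, -, -⟩ := hP
  haveI : CompactSpace (XX hM) := isCompact_iff_compactSpace.1 hK
  have h0 : (0 : ∀ n, E ⧸ M n) ∈ XX hM := by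
    refine ⟨fun n => by simp, fun N => by simp⟩
  obtain ⟨B, hB⟩ : ∃ B, ∀ p, ‖a p‖ ≤ B := by
    obtain ⟨B, hB⟩ := (isCompact_range ha).isBounded.exists_norm_le
    exact ⟨B, fun p => hB _ ⟨p, rfl⟩⟩
  -- constants
  let L : E →ₗ[ℝ] (∀ n, E ⧸ M n) := LinearMap.pi (fun n => (M n).mkQ)
  have nq : ∀ (n : ℕ) (x : E), ‖(M n).mkQ x‖ ≤ ‖x‖ := fun n x => Submodule.Quotient.norm_mk_le _ _
  have hrs : ∀ (n : ℕ) (x : E), rs hM n ((M (n + 1)).mkQ x) = (M n).mkQ x := fun n x => rfl
  have hL : ∀ x, ‖x‖ ≤ 1 → L x ∈ XX hM := by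
    intro x hx
    refine ⟨fun n => (nq n x).trans hx, fun N => ?_⟩
    have : ∀ n, ‖rs hM n (L x (n + 1)) - L x n‖ = 0 := by
      intro n
      show ‖rs hM n ((M (n + 1)).mkQ x) - (M n).mkQ x‖ = 0
      rw [hrs, sub_self, norm_zero]
    simp only [this, Finset.sum_const_zero]
    norm_num
  -- truncations
  let Lm : ℕ → E →ₗ[ℝ] (∀ n, E ⧸ M n) := fun m =>
    LinearMap.pi (fun n => if n ≤ m then (M n).mkQ else 0)
  have hLm1 : ∀ m n x, n ≤ m → Lm m x n = (M n).mkQ x := by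
    intro m n x h
    show (if n ≤ m then (M n).mkQ else 0 : E →ₗ[ℝ] E ⧸ M n) x = _
    rw [if_pos h]
  have hLm2 : ∀ m n x, ¬ n ≤ m → Lm m x n = 0 := by
    intro m n x h
    show (if n ≤ m then (M n).mkQ else 0 : E →ₗ[ℝ] E ⧸ M n) x = _
    rw [if_neg h]
    rfl
  have hLm : ∀ m x, ‖x‖ ≤ 1 → Lm m x ∈ XX hM := by
    intro m x hx
    refine ⟨fun n => ?_, fun N => ?_⟩
    · by_cases h : n ≤ m
      · rw [hLm1 m n x h]
        exact (nq n x).trans hx
      · rw [hLm2 m n x h, norm_zero]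
        norm_num
    · have h1 : ∀ n ∈ Finset.range N, ‖rs hM n (Lm m x (n + 1)) - Lm m x n‖ ≤
          if n = m then 1 else 0 := by
        intro n _
        rcases lt_trichotomy n m with h | h | h
        · rw [if_neg h.ne, hLm1 m (n + 1) x h, hLm1 m n x h.le, hrs, sub_self, norm_zero]
        · rw [if_pos h, hLm2 m (n + 1) x (by omega), hLm1 m n x h.le, map_zero, zero_sub, norm_neg]
          exact (nq n x).trans hx
        · rw [if_neg h.ne', hLm2 m (n + 1) x (by omega), hLm2 m n x (by omega), map_zero, sub_zero,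
            norm_zero]
      refine (Finset.sum_le_sum h1).trans ?_
      rw [Finset.sum_ite_eq']
      split_ifs <;> norm_num
  obtain ⟨T, hT⟩ := ext_lin (XX hM) a haff B hB L hL h0
  have hTm : ∀ m, ∃ T : E →L[ℝ] F, ∀ x (hx : ‖x‖ ≤ 1),
      T x = a ⟨Lm m x, hLm m x hx⟩ - a ⟨0, h0⟩ := fun m =>
    ext_lin (XX hM) a haff B hB (Lm m) (hLm m) h0
  choose Tm hTm using hTm
  have hfr : ∀ m, Tm m ∈ VM F M := by
    intro m
    refine ⟨m, fun x hx => ?_⟩
    have hscale : ∀ y ∈ M m, ‖y‖ ≤ 1 → Tm m y = 0 := by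
      intro y hy hy1
      rw [hTm m y hy1]
      have : Lm m y = 0 := by
        funext n
        by_cases h : n ≤ m
        · rw [hLm1 m n y h]
          exact (Submodule.Quotient.mk_eq_zero (M n)).2 (hM h hy)
        · rw [hLm2 m n y h]
          rfl
      have e : (⟨Lm m y, hLm m y hy1⟩ : XX hM) = ⟨0, h0⟩ := Subtype.ext this
      rw [e, sub_self]
    have hr : 0 < 1 + ‖x‖ := by positivity
    have h1 := hscale ((1 + ‖x‖)⁻¹ • x) ((M m).smul_mem _ hx) (by
      rw [norm_smul, norm_inv, Real.norm_of_nonneg hr.le, inv_mul_le_iff₀ hr, mul_one]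
      linarith)
    rw [map_smul] at h1
    exact (smul_eq_zero.1 h1).resolve_left (inv_ne_zero hr.ne')
  refine ⟨T, ?_, ?_⟩
  · -- convergence in norm
    have hx : ∀ m, ∃ x : E, ‖x‖ ≤ 1 ∧ ‖Tm m - T‖ ≤ 2 * ‖(Tm m - T) x‖ := by
      intro m
      rcases (norm_nonneg (Tm m - T)).eq_or_lt with h | h
      · exact ⟨0, by simp, by rw [← h]; positivity⟩
      · obtain ⟨x, hx1, hx2⟩ := (Tm m - T).exists_lt_apply_of_lt_opNorm (half_lt_self h)
        exact ⟨x, hx1.le, by linarith⟩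
    choose x hx1 hx2 using hx
    have hdiff : ∀ m, (Tm m - T) (x m) = a ⟨Lm m (x m), hLm m _ (hx1 m)⟩ - a ⟨L (x m), hL _ (hx1 m)⟩ := by
      intro m
      rw [ContinuousLinearMap.sub_apply, hTm m _ (hx1 m), hT _ (hx1 m)]
      abel
    have huc : UniformContinuous a := CompactSpace.uniformContinuous_of_continuous ha
    have hpair : Tendsto (fun m => ((⟨Lm m (x m), hLm m _ (hx1 m)⟩ : XX hM),
        (⟨L (x m), hL _ (hx1 m)⟩ : XX hM))) atTop (uniformity (XX hM)) := by
      rw [uniformity_subtype, tendsto_comap_iff, Pi.uniformity, tendsto_iInf]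
      intro n
      rw [tendsto_comap_iff]
      have h1 : ∀ᶠ m in atTop, ((Lm m (x m)) n, (L (x m)) n) ∈
          (SetRel.id : Set ((E ⧸ M n) × (E ⧸ M n))) := by
        filter_upwards [eventually_ge_atTop n] with m hm
        rw [hLm1 m n _ hm]
        rfl
      exact (tendsto_principal.2 h1).mono_right refl_le_uniformity
    have h2 := Tendsto.comp huc hpair
    have h3 : Tendsto (fun m => dist (a ⟨Lm m (x m), hLm m _ (hx1 m)⟩)
        (a ⟨L (x m), hL _ (hx1 m)⟩)) atTop (𝓝 0) := by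
      rw [Metric.tendsto_atTop]
      intro ε hε
      have h4 := h2.eventually (Metric.dist_mem_uniformity hε)
      obtain ⟨N, hN⟩ := eventually_atTop.1 h4
      refine ⟨N, fun m hm => ?_⟩
      rw [Real.dist_0_eq_abs, abs_of_nonneg dist_nonneg]
      exact hN m hm
    have h4 : Tendsto Tm atTop (𝓝 T) := by
      rw [tendsto_iff_norm_sub_tendsto_zero]
      refine squeeze_zero (fun m => norm_nonneg _) (fun m => (hx2 m).trans_eq ?_)
        (by simpa using h3.const_mul 2)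
      rw [hdiff m, dist_eq_norm]
    exact mem_closure_of_tendsto h4 (Eventually.of_forall hfr)
  · intro x hx φ ψ hφ hψ
    rw [hT x hx]
    have e1 : (⟨L x, hL x hx⟩ : XX hM) = φ := Subtype.ext hφ.symm
    have e2 : (⟨0, h0⟩ : XX hM) = ψ := Subtype.ext hψ.symm
    rw [e1, e2]

end Pool.Agent.Helper63.BQ
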