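import Pool.Agent.Helper31.BQ.Stmts2

/-! Sheet BQ, row BD: differences of the functionals `bt`. -/

set_option autoImplicit false

namespace Pool.Agent.Helper63.BQ

open Filter Topology Pool.Agent.Helper31.BQ

section
variable {H : Type} [NormedAddCommGroup H] [InnerProductSpace ℝ H]

/-- the coordinate as a linear map on `EE` -/
noncomputable def cl (J : ℕ → H →L[ℝ] H)
    (σ : ∀ k, Fin (2 ^ k) → GG k → ℝ) (τ : ∀ k, Fin (2 ^ (k + 1)) → GG k → ℝ)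
    (k : ℕ) (g : GG k) : EE J σ τ →ₗ[ℝ] H where
  toFun x := cd (x : WW H) k g
  map_add' x y := by
    unfold cd
    simp
  map_smul' c x := by
    unfold cd
    simp

omit [InnerProductSpace ℝ H] in
theorem cd_le (x : WW H) (k : ℕ) (g : GG k) : ‖cd x k g‖ ≤ ‖x‖ := by
  unfold cd
  exact (norm_le_pi_norm _ g).trans (lp.norm_apply_le_norm (by norm_num) x k)

omit [InnerProductSpace ℝ H] in
theorem three (x : WW H) (k : ℕ) (a b c : ℝ) (ha : 0 ≤ a) (hb : 0 ≤ b) (hc : 0 ≤ c)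
    (h1 : ∀ h, ‖cd x k h‖ ≤ a) (h2 : ∀ h, ‖cd x (k + 1) h‖ ≤ b)
    (h3 : ∀ h, ‖cd x (k + 2) h‖ ≤ c)
    (h0 : ∀ l, l ≠ k → l ≠ k + 1 → l ≠ k + 2 → ∀ h, cd x l h = 0) :
    ‖x‖ ≤ a + b + c := by
  have e : x = lp.single 2 k (x k) + lp.single 2 (k + 1) (x (k + 1)) +
      lp.single 2 (k + 2) (x (k + 2)) := by
    apply lp.ext
    funext l
    rw [lp.coeFn_add, lp.coeFn_add, Pi.add_apply, Pi.add_apply]
    by_cases e1 : l = k
    · subst e1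
      rw [lp.single_apply_self, lp.single_apply_ne _ _ _ (by omega),
        lp.single_apply_ne _ _ _ (by omega)]
      simp
    by_cases e2 : l = k + 1
    · subst e2
      rw [lp.single_apply_self, lp.single_apply_ne _ _ _ (by omega),
        lp.single_apply_ne _ _ _ (by omega)]
      simp
    by_cases e3 : l = k + 2
    · subst e3
      rw [lp.single_apply_self, lp.single_apply_ne _ _ _ (by omega),
        lp.single_apply_ne _ _ _ (by omega)]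
      simp
    rw [lp.single_apply_ne _ _ _ e1, lp.single_apply_ne _ _ _ e2, lp.single_apply_ne _ _ _ e3]
    funext h
    have := h0 l e1 e2 e3 h
    unfold cd at this
    rw [this]
    simp
  rw [e]
  refine (norm_add_le _ _).trans (add_le_add ((norm_add_le _ _).trans (add_le_add ?_ ?_)) ?_)
  · rw [lp.norm_single (by norm_num)]
    exact (pi_norm_le_iff_of_nonneg ha).2 h1
  · rw [lp.norm_single (by norm_num)]
    exact (pi_norm_le_iff_of_nonneg hb).2 h2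
  · rw [lp.norm_single (by norm_num)]
    exact (pi_norm_le_iff_of_nonneg hc).2 h3

/-- the functional `⟪w, J k (R x)(k, g)⟫` -/
noncomputable def Lm (w : H) (J : ℕ → H →L[ℝ] H)
    (σ : ∀ k, Fin (2 ^ k) → GG k → ℝ) (τ : ∀ k, Fin (2 ^ (k + 1)) → GG k → ℝ)
    (R : EE J σ τ →L[ℝ] EE J σ τ) (k : ℕ) (g : GG k) : EE J σ τ →ₗ[ℝ] ℝ :=
  ((innerSL ℝ w).comp (J k)).toLinearMap.comp ((cl J σ τ k g).comp R.toLinearMap)

theorem Lm_ap (w : H) (J : ℕ → H →L[ℝ] H)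
    (σ : ∀ k, Fin (2 ^ k) → GG k → ℝ) (τ : ∀ k, Fin (2 ^ (k + 1)) → GG k → ℝ)
    (R : EE J σ τ →L[ℝ] EE J σ τ) (k : ℕ) (g : GG k) (x : EE J σ τ) :
    Lm w J σ τ R k g x = inner ℝ w (J k (cd (R x : WW H) k g)) := rfl

theorem Lm_le (w : H) (J : ℕ → H →L[ℝ] H)
    (σ : ∀ k, Fin (2 ^ k) → GG k → ℝ) (τ : ∀ k, Fin (2 ^ (k + 1)) → GG k → ℝ)
    (R : EE J σ τ →L[ℝ] EE J σ τ) (k : ℕ) (g : GG k) (x : EE J σ τ) (hw : ‖w‖ = 1)
    (hJ : ‖J k‖ ≤ 1) : |Lm w J σ τ R k g x| ≤ ‖R‖ * ‖x‖ := by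
  rw [Lm_ap]
  have h1 := abs_real_inner_le_norm w (J k (cd (R x : WW H) k g))
  have h2 := (J k).le_opNorm (cd (R x : WW H) k g)
  have h3 := cd_le (R x : WW H) k g
  have h4 : ‖(R x : WW H)‖ ≤ ‖R‖ * ‖x‖ := R.le_opNorm x
  rw [hw, one_mul] at h1
  have h5 : ‖J k‖ * ‖cd (R x : WW H) k g‖ ≤ 1 * ‖cd (R x : WW H) k g‖ :=
    mul_le_mul_of_nonneg_right hJ (norm_nonneg _)
  linarith

theorem btA (w : H) (J : ℕ → H →L[ℝ] H)
    (σ : ∀ k, Fin (2 ^ k) → GG k → ℝ) (τ : ∀ k, Fin (2 ^ (k + 1)) → GG k → ℝ)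
    (ξ : ∀ k, Fin (2 ^ (k + 1)) → EE J σ τ) (k : ℕ) (R : EE J σ τ →L[ℝ] EE J σ τ) :
    bt w J σ τ ξ k R = ((2 : ℝ) ^ (k + 3))⁻¹ * ∑ g, Lm w J σ τ R (k + 1) g
      (((2 : ℝ) ^ (k + 1))⁻¹ • ∑ j, σ (k + 1) j g • ξ k j) := by
  have h1 : ∀ j, ((2 : ℝ) ^ (k + 2))⁻¹ *
      ∑ g, τ k j g * inner ℝ w (J k (cd (R (ξ k j) : WW H) k g)) =
      ((2 : ℝ) ^ (k + 3))⁻¹ * ∑ h, σ (k + 1) j h * Lm w J σ τ R (k + 1) h (ξ k j) := by
    intro j
    have h2 : ((2 : ℝ) ^ (k + 2))⁻¹ • ∑ g, τ k j g • J k (cd (R (ξ k j) : WW H) k g) =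
      ((2 : ℝ) ^ (k + 3))⁻¹ • ∑ h, σ (k + 1) j h • J (k + 1) (cd (R (ξ k j) : WW H) (k + 1) h) :=
      (R (ξ k j)).2 k j
    have h3 := congrArg (fun v => inner ℝ w v) h2
    simp only [inner_smul_right, inner_sum] at h3
    exact h3
  unfold bt
  rw [Finset.sum_congr rfl fun j _ => h1 j]
  simp only [map_smul, map_sum, smul_eq_mul, Finset.mul_sum]
  rw [Finset.sum_comm]
  refine Finset.sum_congr rfl fun g _ => Finset.sum_congr rfl fun j _ => ?_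
  ring

theorem btB (w : H) (J : ℕ → H →L[ℝ] H)
    (σ : ∀ k, Fin (2 ^ k) → GG k → ℝ) (τ : ∀ k, Fin (2 ^ (k + 1)) → GG k → ℝ)
    (ξ : ∀ k, Fin (2 ^ (k + 1)) → EE J σ τ) (k : ℕ) (R : EE J σ τ →L[ℝ] EE J σ τ) :
    bt w J σ τ ξ (k + 1) R = ((2 : ℝ) ^ (k + 3))⁻¹ * ∑ g, Lm w J σ τ R (k + 1) g
      (((2 : ℝ) ^ (k + 2))⁻¹ • ∑ j, τ (k + 1) j g • ξ (k + 1) j) := by
  unfold bt
  simp only [map_smul, map_sum, smul_eq_mul, Finset.mul_sum, Lm_ap]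
  rw [Finset.sum_comm]
  refine Finset.sum_congr rfl fun g _ => Finset.sum_congr rfl fun j _ => ?_
  rw [show k + 1 + 1 = k + 2 by omega, show k + 1 + 2 = k + 3 by omega]
  ring

end

theorem st_BD : ST_BD := by
  intro H _ _ _ J e w S T hS σ τ δ hC ξ hξ k R
  obtain ⟨hw, hJ, -, he, -⟩ := hS
  obtain ⟨-, -, -, -, -, c6, c7, c8, -⟩ := hC
  set φ : GG (k + 1) → EE J σ τ := fun g =>
    ((2 : ℝ) ^ (k + 2))⁻¹ • (∑ j, τ (k + 1) j g • ξ (k + 1) j) -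
      ((2 : ℝ) ^ (k + 1))⁻¹ • ∑ j, σ (k + 1) j g • ξ k j with hφ
  have hd : bt w J σ τ ξ (k + 1) R - bt w J σ τ ξ k R =
      ((2 : ℝ) ^ (k + 3))⁻¹ * ∑ g, Lm w J σ τ R (k + 1) g (φ g) := by
    rw [btA w J σ τ ξ k R, btB w J σ τ ξ k R, ← mul_sub, ← Finset.sum_sub_distrib]
    congr 1
    refine Finset.sum_congr rfl fun g _ => ?_
    rw [hφ, map_sub]
  set B : ℝ := ((k : ℝ) + 4) * δ k + 2 * (((k + 1 : ℕ) : ℝ) + 4) * δ (k + 1) with hB
  have hcd : ∀ g l h, cd (φ g : WW H) l h =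
      ((2 : ℝ) ^ (k + 2))⁻¹ • (∑ j, τ (k + 1) j g • cd (ξ (k + 1) j : WW H) l h) -
      ((2 : ℝ) ^ (k + 1))⁻¹ • ∑ j, σ (k + 1) j g • cd (ξ k j : WW H) l h := by
    intro g l h
    have h1 : cd (φ g : WW H) l h = cl J σ τ l h (φ g) := rfl
    rw [h1, hφ]
    simp only [map_sub, map_smul, map_sum]
    rfl
  have hn : ∀ g, ‖φ g‖ ≤ B := by
    intro g
    have h1 : ∀ h, ‖cd (φ g : WW H) k h‖ ≤ ((k : ℝ) + 4) * δ k := by
      intro h
      have e1 : cd (φ g : WW H) k h =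
          (-(((2 : ℝ) ^ (k + 1))⁻¹ * ∑ j, τ k j h * σ (k + 1) j g)) • e k := by
        rw [hcd]
        have a1 : ∀ j, cd (ξ (k + 1) j : WW H) k h = 0 := fun j =>
          (hξ (k + 1) j).2.2 k (by omega) (by omega) h
        have a2 : ∀ j, cd (ξ k j : WW H) k h = τ k j h • e k := fun j => (hξ k j).1 h
        simp only [a1, a2, smul_zero, Finset.sum_const_zero, smul_smul]
        rw [← Finset.sum_smul, smul_smul, zero_sub, ← neg_smul]
        congr 3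
        exact Finset.sum_congr rfl fun j _ => mul_comm _ _
      rw [e1, norm_smul, Real.norm_eq_abs, abs_neg]
      have h2 := c7 k h g
      have h3 := he k
      calc _ ≤ δ k * ((k : ℝ) + 2) := mul_le_mul h2 h3 (norm_nonneg _) (c8 k)
        _ ≤ _ := by nlinarith [c8 k]
    have h2 : ∀ h, ‖cd (φ g : WW H) (k + 1) h‖ ≤ (((k + 1 : ℕ) : ℝ) + 4) * δ (k + 1) := by
      intro h
      have e1 : cd (φ g : WW H) (k + 1) h =
          (-(((2 : ℝ) ^ (k + 1))⁻¹ * (∑ i, σ (k + 1) i g * σ (k + 1) i h) -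
            ((2 : ℝ) ^ (k + 1 + 1))⁻¹ * ∑ j, τ (k + 1) j g * τ (k + 1) j h)) • e (k + 1) := by
        rw [hcd]
        have a1 : ∀ j, cd (ξ (k + 1) j : WW H) (k + 1) h = τ (k + 1) j h • e (k + 1) := fun j =>
          (hξ (k + 1) j).1 h
        have a2 : ∀ j, cd (ξ k j : WW H) (k + 1) h = σ (k + 1) j h • e (k + 1) := fun j =>
          (hξ k j).2.1 h
        simp only [a1, a2, smul_smul]
        rw [← Finset.sum_smul, ← Finset.sum_smul, smul_smul, smul_smul, ← sub_smul, neg_sub]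
      rw [e1, norm_smul, Real.norm_eq_abs, abs_neg]
      have h2 := c6 (k + 1) g h
      have h3 := he (k + 1)
      calc _ ≤ δ (k + 1) * (((k + 1 : ℕ) : ℝ) + 2) := mul_le_mul h2 h3 (norm_nonneg _) (c8 (k + 1))
        _ ≤ _ := by nlinarith [c8 (k + 1)]
    have h3 : ∀ h, ‖cd (φ g : WW H) (k + 2) h‖ ≤ (((k + 1 : ℕ) : ℝ) + 4) * δ (k + 1) := by
      intro h
      have e1 : cd (φ g : WW H) (k + 2) h =
          (((2 : ℝ) ^ (k + 1 + 1))⁻¹ * ∑ j, τ (k + 1) j g * σ (k + 1 + 1) j h) • e (k + 2) := by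
        rw [hcd]
        have a1 : ∀ j, cd (ξ (k + 1) j : WW H) (k + 2) h = σ (k + 1 + 1) j h • e (k + 2) :=
          fun j => (hξ (k + 1) j).2.1 h
        have a2 : ∀ j, cd (ξ k j : WW H) (k + 2) h = 0 := fun j =>
          (hξ k j).2.2 (k + 2) (by omega) (by omega) h
        simp only [a1, a2, smul_smul, smul_zero, Finset.sum_const_zero, sub_zero]
        rw [← Finset.sum_smul, smul_smul]
      rw [e1, norm_smul, Real.norm_eq_abs]
      have h2 := c7 (k + 1) g h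
      have h3 := he (k + 2)
      have h4 : (((k + 2 : ℕ) : ℝ) + 2) ≤ ((k + 1 : ℕ) : ℝ) + 4 := by push_cast; linarith
      calc _ ≤ δ (k + 1) * (((k + 2 : ℕ) : ℝ) + 2) := mul_le_mul h2 h3 (norm_nonneg _) (c8 (k + 1))
        _ ≤ _ := by nlinarith [c8 (k + 1)]
    have h0 : ∀ l, l ≠ k → l ≠ k + 1 → l ≠ k + 2 → ∀ h, cd (φ g : WW H) l h = 0 := by
      intro l l1 l2 l3 h
      rw [hcd]
      have a1 : ∀ j, cd (ξ (k + 1) j : WW H) l h = 0 := fun j =>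
        (hξ (k + 1) j).2.2 l l2 l3 h
      have a2 : ∀ j, cd (ξ k j : WW H) l h = 0 := fun j => (hξ k j).2.2 l l1 l2 h
      simp only [a1, a2, smul_zero, Finset.sum_const_zero, sub_zero]
    have h4 : ‖(φ g : WW H)‖ ≤ ((k : ℝ) + 4) * δ k + (((k + 1 : ℕ) : ℝ) + 4) * δ (k + 1) +
        (((k + 1 : ℕ) : ℝ) + 4) * δ (k + 1) :=
      three _ k _ _ _ (mul_nonneg (by positivity) (c8 _)) (mul_nonneg (by positivity) (c8 _))
        (mul_nonneg (by positivity) (c8 _)) h1 h2 h3 h0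
    have h5 : ‖φ g‖ = ‖(φ g : WW H)‖ := rfl
    rw [h5]
    linarith
  rw [hd, abs_mul, abs_of_pos (by positivity : (0 : ℝ) < ((2 : ℝ) ^ (k + 3))⁻¹)]
  have h1 : |∑ g, Lm w J σ τ R (k + 1) g (φ g)| ≤ ∑ g : GG (k + 1), ‖R‖ * B :=
    (Finset.abs_sum_le_sum_abs _ _).trans (Finset.sum_le_sum fun g _ =>
      (Lm_le w J σ τ R (k + 1) g (φ g) hw (hJ _)).trans
        (mul_le_mul_of_nonneg_left (hn g) R.opNorm_nonneg))
  rw [Finset.sum_const, Finset.card_univ, Fintype.card_fun, Fintype.card_fin, Fintype.card_bool,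
    nsmul_eq_mul] at h1
  calc ((2 : ℝ) ^ (k + 3))⁻¹ * |∑ g, Lm w J σ τ R (k + 1) g (φ g)| ≤
        ((2 : ℝ) ^ (k + 3))⁻¹ * (((2 ^ (k + 1 + 2) : ℕ) : ℝ) * (‖R‖ * B)) :=
        mul_le_mul_of_nonneg_left h1 (by positivity)
    _ = ‖R‖ * B := by
      push_cast
      rw [show k + 1 + 2 = k + 3 by omega]
      field_simp

end Pool.Agent.Helper63.BQ
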